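import Pool.Agent.H26.LQ.Defs

/-!
# P0: the Poisson majorant
-/

set_option autoImplicit false

open MeasureTheory Set Filter Topology Metric

namespace Pool.Agent.H54.LQ

open Pool.Agent.H26.LQ Pool.Agent.H26.ZQ Pool.Agent.H26.MQ Pool.Agent.H26.ML

lemma bz_measurable {E : ℝ} {g : ℂ → ℂ} (hg : HB E g) : Measurable (bz g) := by
  have h1 : Continuous fun u : ℝ => g (u * Complex.I) := by
    refine hg.cont.comp_continuous (by fun_prop) fun u => ?_
    simp
  exact Real.measurable_log.comp h1.norm.measurable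

lemma hb_shift {E : ℝ} {g : ℂ → ℂ} (hg : HB E g) (y : ℝ) :
    HB E (fun z => g (z + y * Complex.I)) := by
  refine ⟨?_, ?_, ?_, ?_⟩
  · intro z hz
    have h1 : AnalyticAt ℂ g (z + y * Complex.I) := hg.an _ (by
      simp only [Set.mem_ofPred_eq] at hz ⊢
      simpa using hz)
    have h2 : AnalyticAt ℂ (fun z : ℂ => z + y * Complex.I) z := by fun_prop
    exact AnalyticAt.fun_comp h1 h2
  · refine hg.cont.comp (by fun_prop) ?_
    intro z hz
    simp only [Set.mem_ofPred_eq] at hz ⊢
    simpa using hz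
  · intro z hz
    exact hg.bdd _ (by simpa using hz)
  · have h1 := (measurePreserving_add_right (volume : Measure ℝ) y).quasiMeasurePreserving.ae hg.ne
    filter_upwards [h1] with u hu
    have : (u : ℂ) * Complex.I + y * Complex.I = ((u + y : ℝ) : ℂ) * Complex.I := by
      push_cast; ring
    rw [this]
    exact hu

lemma bz_shift (g : ℂ → ℂ) (y u : ℝ) :
    bz (fun z => g (z + y * Complex.I)) u = bz g (u + y) := by
  unfold bz
  have : (u : ℂ) * Complex.I + y * Complex.I = ((u + y : ℝ) : ℂ) * Complex.I := by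
    push_cast; ring
  show Real.log ‖g ((u : ℂ) * Complex.I + y * Complex.I)‖ = _
  rw [this]

lemma poi_le (x y u : ℝ) (hx : 0 < x) :
    poi 1 u ≤ ((x ^ 2 + 2 * y ^ 2 + 2) / x) * poi x (u - y) := by
  unfold poi
  have h1 : 0 < x ^ 2 + (u - y) ^ 2 := by positivity
  have h2 : 0 < (1 : ℝ) ^ 2 + u ^ 2 := by positivity
  have e : ((x ^ 2 + 2 * y ^ 2 + 2) / x) * (x / (x ^ 2 + (u - y) ^ 2)) =
      (x ^ 2 + 2 * y ^ 2 + 2) / (x ^ 2 + (u - y) ^ 2) := by
    field_simp
  rw [e, div_le_div_iff₀ h2 h1]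
  nlinarith [sq_nonneg (u + y), sq_nonneg (u * x), sq_nonneg (u * y), sq_nonneg u, sq_nonneg x,
    sq_nonneg y]

theorem pf_p0 (hJ0 : T_J0) : T_P0 := by
  intro E g hE hg hne
  have hm := bz_measurable hg
  have main : ∀ x y : ℝ, 0 < x → g (x + y * Complex.I) ≠ 0 →
      Integrable (fun u : ℝ => poi x (u - y) * bz g u) ∧
      Real.pi * Real.log ‖g (x + y * Complex.I)‖ ≤ ∫ u : ℝ, poi x (u - y) * bz g u := by
    intro x y hx hxy
    obtain ⟨h1, h2⟩ := hJ0 E x (fun z => g (z + y * Complex.I)) ∅ hE hx (hb_shift hg y) hxy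
      (by simp)
    simp only [Finset.sum_empty, zero_add] at h2
    have h3 : ∀ u : ℝ, poi x u * bz (fun z => g (z + y * Complex.I)) u =
        (fun u : ℝ => poi x (u - y) * bz g u) (u + y) := by
      intro u
      simp only [bz_shift, add_sub_cancel_right]
    have h4 : (fun u : ℝ => poi x u * bz (fun z => g (z + y * Complex.I)) u) =
        fun u => (fun u : ℝ => poi x (u - y) * bz g u) (u + y) := funext h3
    rw [h4] at h1 h2
    refine ⟨?_, ?_⟩
    · have := h1.comp_sub_right y
      simpa using this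
    · rw [integral_add_right_eq_self (fun u : ℝ => poi x (u - y) * bz g u) y] at h2
      exact h2
  refine ⟨hm, ?_, ?_⟩
  · obtain ⟨z, hz, hgz⟩ := hne
    have hz' : g (z.re + z.im * Complex.I) ≠ 0 := by rw [Complex.re_add_im]; exact hgz
    obtain ⟨h1, _⟩ := main z.re z.im hz hz'
    refine (h1.norm.const_mul ((z.re ^ 2 + 2 * z.im ^ 2 + 2) / z.re)).mono'
      (((poi_continuous one_pos).measurable.mul hm).aestronglyMeasurable) ?_
    filter_upwards with u
    rw [norm_mul, norm_mul, Real.norm_of_nonneg (poi_pos one_pos u).le,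
      Real.norm_of_nonneg (poi_pos hz (u - z.im)).le, ← mul_assoc]
    exact mul_le_mul_of_nonneg_right (poi_le z.re z.im u hz) (norm_nonneg _)
  · intro x y hx hxy
    obtain ⟨_, h2⟩ := main x y hx hxy
    unfold UU
    have h3 : ∀ u : ℝ, poi (x + 0) (y - u) * bz g u = poi x (u - y) * bz g u := by
      intro u
      have : poi (x + 0) (y - u) = poi x (u - y) := by
        unfold poi
        rw [add_zero]
        congr 2
        ring
      rw [this]
    simp_rw [h3]
    rw [← div_eq_inv_mul, le_div_iff₀ Real.pi_pos]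
    linarith

end Pool.Agent.H54.LQ
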