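import Pool.Agent.H54.LQ.Targets

/-!
Row BTG of the board lpq: tightness is Borel.
-/

set_option autoImplicit false

open Set Filter Topology

namespace Pool.Agent.H54.LQ

open Pool.Agent.H93.CP Pool.Agent.H7.LP Pool.Agent.H7.LQ

/-- the condition of one point -/
theorem btg_pt (h1 : T_KXA) (h2 : T_FIN) (h3 : T_TGC) {G X : Type} [Group G] [TopologicalSpace G]
    [IsTopologicalGroup G] [PolishSpace G] [MeasurableSpace X] (B : Bs G) (L : LPD G)
    (M : Subgroup G) [MulAction M X] (Y : Hit M X) (k m : ℕ) (x : X) (g : G) (d : ℕ → G)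
    (hd : ∀ n, d n ∈ Stb (L.H k) (lb L Y k x g))
    (hdd : ∀ a ∈ Stb (L.H k) (lb L Y k x g), ∀ O ∈ 𝓝 a, ∃ n, d n ∈ O) :
    Tight (L.R k) (KX B L Y k m x g) ↔ ∀ m' : ℕ, m ≤ m' → ∃ F : Finset ℕ, ∀ n : ℕ,
      ¬ (d n ∈ KX B L Y k m x g) ∨ ∃ f ∈ F, (d f)⁻¹ * d n ∈ KX B L Y k m' x g := by
  obtain ⟨g1, g2, -, -⟩ := h1 G X B L M Y k x g
  have h4 := h3 G X B L M Y k m x g
  generalize hK : KX B L Y k m x g = K at *
  refine h4.trans (forall_congr' fun m' => forall_congr' fun hm' => ?_)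
  have e1 : KX B L Y k m' x g ≤ K := hK ▸ g2 m m' hm'
  have e2 : K ≤ Stb (L.H k) (lb L Y k x g) := hK ▸ (g1 m).2.1
  have e3 := (g1 m').2.2.1
  generalize KX B L Y k m' x g = K' at *
  generalize Stb (L.H k) (lb L Y k x g) = D at *
  have h5 := h2 G K' K D d e1 e2 e3 hd hdd
  refine h5.trans (exists_congr fun F => forall_congr' fun n => ?_)
  exact imp_iff_not_or

theorem pf_BTG (h1 : T_KXA) (h2 : T_FIN) (h3 : T_TGC) (h4 : T_DEL) (h5 : T_BKX) : T_BTG := by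
  intro G X _ _ _ _ _ _ _ _ B L M _ Y k m
  obtain ⟨δ, hδm, hδs, hδd⟩ := h4 G X L M Y
  have key : {p : X × G | Tight (L.R k) (KX B L Y k m p.1 p.2)} =
      ⋂ m' : ℕ, ⋂ (_ : m ≤ m'), ⋃ F : Finset ℕ, ⋂ n : ℕ,
        ({p : X × G | δ k n p ∈ KX B L Y k m p.1 p.2}ᶜ ∪
          ⋃ f ∈ F, {p : X × G | (δ k f p)⁻¹ * δ k n p ∈ KX B L Y k m' p.1 p.2}) := by
    ext p
    have h6 := btg_pt h1 h2 h3 B L M Y k m p.1 p.2 (fun n => δ k n p) (fun n => hδs k n p)
      (hδd k p)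
    rw [mem_ofPred_eq, h6]
    simp only [mem_iInter, mem_iUnion, mem_union, mem_compl_iff, exists_prop, mem_ofPred_eq]
  rw [key]
  refine MeasurableSet.iInter fun m' => MeasurableSet.iInter fun _ =>
    MeasurableSet.iUnion fun F => MeasurableSet.iInter fun n => ?_
  have e1 : MeasurableSet {p : X × G | δ k n p ∈ KX B L Y k m p.1 p.2} :=
    (measurable_id.prodMk (hδm k n)) (h5 G X B L M Y k m)
  have e2 : ∀ f : ℕ, MeasurableSet
      {p : X × G | (δ k f p)⁻¹ * δ k n p ∈ KX B L Y k m' p.1 p.2} := fun f =>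
    (measurable_id.prodMk ((hδm k f).inv.mul (hδm k n))) (h5 G X B L M Y k m')
  exact e1.compl.union (Finset.measurableSet_biUnion F fun f _ => e2 f)

end Pool.Agent.H54.LQ
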