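import Pool.Agent.H7.LP.Defs2

/-!
# Targets of the board lpq_modules, part B: selectors, stabilizers, Borel sets of nodes
-/

set_option autoImplicit false

open Set Filter Topology

namespace Pool.Agent.H54.LQ

open Pool.Agent.H93.CP Pool.Agent.H7.LP Pool.Agent.H7.LQ

/-! ### Selectors -/

/-- BSX: bases exist. -/
def T_BSX : Prop :=
  ∀ (G : Type) [Group G] [TopologicalSpace G] [IsTopologicalGroup G] [PolishSpace G],
    Nonempty (Bs G)

/-- SEG: measurable dense selectors of closed sets, as functions of the code. -/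
def T_SEG : Prop :=
  ∀ (E : Type) [TopologicalSpace E] [PolishSpace E] [Nonempty E] [MeasurableSpace E]
    [BorelSpace E] (U : ℕ → Set E), (∀ p, IsOpen (U p)) →
    (∀ (a : E), ∀ O ∈ 𝓝 a, ∃ p, a ∈ U p ∧ U p ⊆ O) →
    ∃ sel : (ℕ → Bool) → ℕ → E, (∀ n, Measurable fun c => sel c n) ∧
      ∀ (F : Set E) (c : ℕ → Bool), IsClosed F → F.Nonempty →
        (∀ p, c p = true ↔ (F ∩ U p).Nonempty) →
        (∀ n, sel c n ∈ F) ∧ ∀ g ∈ F, ∀ O ∈ 𝓝 g, ∃ n, sel c n ∈ O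

/-- SE0: selectors for groups. -/
def T_SEL0 : Prop :=
  ∀ (G : Type) [Group G] [TopologicalSpace G] [IsTopologicalGroup G] [PolishSpace G]
    [MeasurableSpace G] [BorelSpace G] (B : Bs G), ∃ sel : (ℕ → Bool) → ℕ → G, IsSel B sel

/-- KRN: the selection theorem, with dense selectors. -/
def T_KRN : Prop :=
  ∀ (Ω E : Type) [MeasurableSpace Ω] [TopologicalSpace E] [PolishSpace E] [Nonempty E]
    [MeasurableSpace E] [BorelSpace E] (Φ : Ω → Set E), (∀ w, IsClosed (Φ w)) →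
    (∀ w, (Φ w).Nonempty) → (∀ U, IsOpen U → MeasurableSet {w | (Φ w ∩ U).Nonempty}) →
    ∃ ν : ℕ → Ω → E, (∀ n, Measurable (ν n)) ∧ (∀ n w, ν n w ∈ Φ w) ∧
      ∀ w, ∀ g ∈ Φ w, ∀ O ∈ 𝓝 g, ∃ n, ν n w ∈ O

/-- MEM: the graph of a closed-valued map with measurable dense selectors is measurable. -/
def T_MEM : Prop :=
  ∀ (Ω E : Type) [MeasurableSpace Ω] [TopologicalSpace E] [PolishSpace E]
    [MeasurableSpace E] [BorelSpace E] (Φ : Ω → Set E) (δ : ℕ → Ω → E), (∀ w, IsClosed (Φ w)) →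
    (∀ n, Measurable (δ n)) → (∀ n w, δ n w ∈ Φ w) →
    (∀ w, ∀ g ∈ Φ w, ∀ O ∈ 𝓝 g, ∃ n, δ n w ∈ O) → MeasurableSet {p : Ω × E | p.2 ∈ Φ p.1}

/-! ### Groups generated by small elements -/

/-- KKA: the group generated by the small elements. -/
def T_KKA : Prop :=
  ∀ (G : Type) [Group G] [TopologicalSpace G] [IsTopologicalGroup G] [PolishSpace G] (B : Bs G)
    (R H : Subgroup G) (y : ℕ → Set G), Piece R H → (∀ n, IsClosed (y n)) → lab R y = y →
    (∀ m, R ≤ KK R H y (B.N m) ∧ KK R H y (B.N m) ≤ Stb H y ∧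
      OpenIn (KK R H y (B.N m)) (Stb H y) ∧ IsClosed (KK R H y (B.N m) : Set G)) ∧
    (∀ m m', m ≤ m' → KK R H y (B.N m') ≤ KK R H y (B.N m)) ∧
    (∀ O : Subgroup G, R ≤ O → O ≤ Stb H y → OpenIn O (Stb H y) → ∃ m, KK R H y (B.N m) ≤ O) ∧
    ∃ m₀, ∀ m, m₀ ≤ m → Tight R (KK R H y (B.N m))

/-- KXA: the same for the groups of nodes. -/
def T_KXA : Prop :=
  ∀ (G X : Type) [Group G] [TopologicalSpace G] [IsTopologicalGroup G] [PolishSpace G]
    [MeasurableSpace X] (B : Bs G) (L : LPD G) (M : Subgroup G) [MulAction M X] (Y : Hit M X)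
    (k : ℕ) (x : X) (g : G),
    (∀ m, L.R k ≤ KX B L Y k m x g ∧ KX B L Y k m x g ≤ Stb (L.H k) (lb L Y k x g) ∧
      OpenIn (KX B L Y k m x g) (Stb (L.H k) (lb L Y k x g)) ∧
      IsClosed (KX B L Y k m x g : Set G)) ∧
    (∀ m m', m ≤ m' → KX B L Y k m' x g ≤ KX B L Y k m x g) ∧
    (∀ O : Subgroup G, L.R k ≤ O → O ≤ Stb (L.H k) (lb L Y k x g) →
      OpenIn O (Stb (L.H k) (lb L Y k x g)) → ∃ m, KX B L Y k m x g ≤ O) ∧
    ∃ m₀, ∀ m, m₀ ≤ m → Tight (L.R k) (KX B L Y k m x g)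

/-- GEN: the group generated by a relatively open symmetric set, by dense elements. -/
def T_GEN : Prop :=
  ∀ (G : Type) [Group G] [TopologicalSpace G] [IsTopologicalGroup G] (D : Subgroup G)
    (S : Set G) (δ : ℕ → G), S ⊆ (D : Set G) → (∀ s ∈ S, s⁻¹ ∈ S) → (1 : G) ∈ S →
    (∀ s ∈ S, ∃ O ∈ 𝓝 s, ∀ g ∈ D, g ∈ O → g ∈ S) → (∀ n, δ n ∈ D) →
    (∀ g ∈ D, ∀ O ∈ 𝓝 g, ∃ n, δ n ∈ O) → ∀ a : G, a ∈ Subgroup.closure S ↔
      ∃ l : List ℕ, (∀ i ∈ l, δ i ∈ S) ∧ ((l.map δ).prod)⁻¹ * a ∈ S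

/-- DOP: the elements of a dense sequence which are in an open subgroup are dense in it. -/
def T_DOP : Prop :=
  ∀ (G : Type) [Group G] [TopologicalSpace G] [IsTopologicalGroup G] (K' K D : Subgroup G)
    (δ : ℕ → G), K' ≤ K → K ≤ D → OpenIn K' D → (∀ n, δ n ∈ D) →
    (∀ g ∈ D, ∀ O ∈ 𝓝 g, ∃ n, δ n ∈ O) →
    ∀ a ∈ K, ∀ O ∈ 𝓝 a, ∃ n, δ n ∈ K ∧ δ n ∈ O ∧ (δ n)⁻¹ * a ∈ K'

/-- FIN: finite index, by dense elements. -/
def T_FIN : Prop :=
  ∀ (G : Type) [Group G] [TopologicalSpace G] [IsTopologicalGroup G] (K' K D : Subgroup G)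
    (δ : ℕ → G), K' ≤ K → K ≤ D → OpenIn K' D → (∀ n, δ n ∈ D) →
    (∀ g ∈ D, ∀ O ∈ 𝓝 g, ∃ n, δ n ∈ O) →
    (FinIn K' K ↔ ∃ F : Finset ℕ, ∀ n, δ n ∈ K → ∃ f ∈ F, (δ f)⁻¹ * δ n ∈ K')

/-- TGC: tightness of the groups of nodes by finite indices. -/
def T_TGC : Prop :=
  ∀ (G X : Type) [Group G] [TopologicalSpace G] [IsTopologicalGroup G] [PolishSpace G]
    [MeasurableSpace X] (B : Bs G) (L : LPD G) (M : Subgroup G) [MulAction M X] (Y : Hit M X)
    (k m : ℕ) (x : X) (g : G), Tight (L.R k) (KX B L Y k m x g) ↔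
      ∀ m', m ≤ m' → FinIn (KX B L Y k m' x g) (KX B L Y k m x g)

/-! ### Borel sets -/

/-- SGO: open subsets of a piece are `σ`-compact modulo `R`. -/
def T_SGO : Prop :=
  ∀ (G : Type) [Group G] [TopologicalSpace G] [IsTopologicalGroup G] [PolishSpace G]
    (R H : Subgroup G) (U : Set G), Piece R H → IsOpen U → ∃ C : ℕ → Set G,
      (∀ l, IsCompact (C l)) ∧ (∀ l, ∀ c ∈ C l, c ∈ H ∧ ∃ r ∈ R, c * r ∈ U) ∧
      ∀ h ∈ H, h ∈ U → ∃ l, ∃ c ∈ C l, c⁻¹ * h ∈ R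

/-- CLB: the stabilizers at representatives are closed relations. -/
def T_CLB : Prop :=
  ∀ (G X : Type) [Group G] [TopologicalSpace G] [IsTopologicalGroup G] [PolishSpace G]
    [MeasurableSpace X] [StandardBorelSpace X] (M : Subgroup G) [MulAction M X] (Y : Hit M X)
    (R H : Subgroup G) (g : ℕ → G), Piece R H →
    ∃ t : TopologicalSpace X, @PolishSpace X t ∧ @BorelSpace X t _ ∧
      ∀ i : ℕ, @IsClosed (X × G) (@instTopologicalSpaceProd _ _ t _)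
        {p : X × G | p.2 ∈ H ∧
          lab R (tr (p.2 * g i) (Y.C p.1)) = lab R (tr (g i) (Y.C p.1))}

/-- BSU: hits of the stabilizers are Borel. -/
def T_BSU : Prop :=
  ∀ (G X : Type) [Group G] [TopologicalSpace G] [IsTopologicalGroup G] [PolishSpace G]
    [MeasurableSpace G] [BorelSpace G] [MeasurableSpace X] [StandardBorelSpace X] (L : LPD G)
    (M : Subgroup G) [MulAction M X] (Y : Hit M X) (k : ℕ) (U : Set G), IsOpen U →
    MeasurableSet {p : X × G | ((Stb (L.H k) (lb L Y k p.1 p.2) : Set G) ∩ U).Nonempty}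

/-- DEL: dense measurable elements of the stabilizers. -/
def T_DEL : Prop :=
  ∀ (G X : Type) [Group G] [TopologicalSpace G] [IsTopologicalGroup G] [PolishSpace G]
    [MeasurableSpace G] [BorelSpace G] [MeasurableSpace X] [StandardBorelSpace X] (L : LPD G)
    (M : Subgroup G) [MulAction M X] (Y : Hit M X), ∃ δ : ℕ → ℕ → X × G → G,
      (∀ k n, Measurable (δ k n)) ∧
      (∀ k n p, δ k n p ∈ Stb (L.H k) (lb L Y k p.1 p.2)) ∧
      ∀ k p, ∀ g ∈ Stb (L.H k) (lb L Y k p.1 p.2), ∀ O ∈ 𝓝 g, ∃ n, δ k n p ∈ O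

/-- BKX: the groups of nodes are Borel. -/
def T_BKX : Prop :=
  ∀ (G X : Type) [Group G] [TopologicalSpace G] [IsTopologicalGroup G] [PolishSpace G]
    [MeasurableSpace G] [BorelSpace G] [MeasurableSpace X] [StandardBorelSpace X] (B : Bs G)
    (L : LPD G) (M : Subgroup G) [MulAction M X] (Y : Hit M X) (k m : ℕ),
    MeasurableSet {p : (X × G) × G | p.2 ∈ KX B L Y k m p.1.1 p.1.2}

/-- BTG: tightness is Borel. -/
def T_BTG : Prop :=
  ∀ (G X : Type) [Group G] [TopologicalSpace G] [IsTopologicalGroup G] [PolishSpace G]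
    [MeasurableSpace G] [BorelSpace G] [MeasurableSpace X] [StandardBorelSpace X] (B : Bs G)
    (L : LPD G) (M : Subgroup G) [MulAction M X] (Y : Hit M X) (k m : ℕ),
    MeasurableSet {p : X × G | Tight (L.R k) (KX B L Y k m p.1 p.2)}

/-- BLE: the order of nodes is Borel. -/
def T_BLE : Prop :=
  ∀ (G X : Type) [Group G] [TopologicalSpace G] [IsTopologicalGroup G] [PolishSpace G]
    [MeasurableSpace G] [BorelSpace G] [MeasurableSpace X] [StandardBorelSpace X] (B : Bs G)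
    (L : LPD G) (M : Subgroup G) [MulAction M X] (Y : Hit M X) (k' m' k m : ℕ),
    MeasurableSet {p : X × G × G | Le B L Y p.1 (k', m', p.2.1) (k, m, p.2.2)}

/-- BQQ: hits of the quotients are Borel. -/
def T_BQQ : Prop :=
  ∀ (G X : Type) [Group G] [TopologicalSpace G] [IsTopologicalGroup G] [PolishSpace G]
    [MeasurableSpace G] [BorelSpace G] [MeasurableSpace X] [StandardBorelSpace X] (B : Bs G)
    (L : LPD G) (M : Subgroup G) [MulAction M X] (Y : Hit M X) (k m : ℕ) (U : Set G), IsOpen U →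
    MeasurableSet {p : X × G × G | ∃ u ∈ KX B L Y k m p.1 p.2.2, p.2.1 * (p.2.2)⁻¹ * u ∈ U}

end Pool.Agent.H54.LQ
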