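import Pool.Agent.H7.LP.Targets3
import Pool.Agent.H54.LQ.Targets

/-!
Part B of the board lpq: from the targets of helper54 to the targets of helper7.
-/

set_option autoImplicit false

open Set Filter Topology

namespace Pool.Agent.H54.LQ

open Pool.Agent.H93.CP Pool.Agent.H7.LP

theorem br_BSX (h : T_BSX) : Pool.Agent.H7.LQ.T_BSX := h

theorem br_SLX (h : T_SEL0) : Pool.Agent.H7.LQ.T_SLX := h

theorem br_KKA (h : T_KKA) : Pool.Agent.H7.LQ.T_KKA := by
  intro G _ _ _ _ B R H y hP hy hl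
  obtain ⟨h1, h2, h3, m₀, h4⟩ := h G B R H y hP hy hl
  refine ⟨fun m => (h1 m).1, fun m => (h1 m).2.1, fun m => (h1 m).2.2.1, fun m => (h1 m).2.2.2,
    fun m => h2 m (m + 1) (Nat.le_succ m), fun O hR hO hop => ?_⟩
  obtain ⟨m, hm⟩ := h3 O hR hO hop
  exact ⟨max m m₀, (h2 m _ (le_max_left _ _)).trans hm, h4 _ (le_max_right _ _)⟩

theorem br_BKX (h : T_BKX) : Pool.Agent.H7.LQ.T_BKX := h

theorem br_BTG (h : T_BTG) : Pool.Agent.H7.LQ.T_BTG := h

theorem br_BLE (h : T_BLE) : Pool.Agent.H7.LQ.T_BLE := h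

theorem br_BQQ (h : T_BQQ) : Pool.Agent.H7.LQ.T_BQQ := h

end Pool.Agent.H54.LQ
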