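import Pool.Agent.H7.LP.Targets3

/-!
Row LBM of the board lpq: labels are Borel.
-/

set_option autoImplicit false

open Set Filter Topology

namespace Pool.Agent.H54.LQ

open Pool.Agent.H93.CP Pool.Agent.H7.LP Pool.Agent.H7.LQ

theorem pf_LBM : T_LBM := by
  intro G X _ _ _ _ _ _ _ _ L M _ Y k n U hU
  -- the open set `U R`
  set O : Set G := {b | ∃ r ∈ L.R k, b * r⁻¹ ∈ U} with hO
  have hOo : IsOpen O := by
    have : O = ⋃ r ∈ L.R k, (fun b => b * r⁻¹) ⁻¹' U := by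
      ext b
      simp [hO]
    rw [this]
    exact isOpen_biUnion fun r _ => hU.preimage (continuous_id.mul continuous_const)
  set S := TopologicalSpace.countableBasis G with hS
  have hSb : TopologicalSpace.IsTopologicalBasis S := TopologicalSpace.isBasis_countableBasis G
  have hSc : S.Countable := TopologicalSpace.countable_countableBasis G
  have key : {p : X × G | (lb L Y k p.1 p.2 n ∩ U).Nonempty} =
      ⋃ V ∈ S, ⋃ W ∈ S, ⋃ (_ : ∀ v ∈ V, ∀ w ∈ W, v * w⁻¹ ∈ O),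
        {x : X | (Y.C x n ∩ V).Nonempty} ×ˢ W := by
    ext ⟨x, g⟩
    simp only [mem_ofPred_eq, mem_iUnion, mem_prod, exists_prop]
    constructor
    · rintro ⟨a, ha, haU⟩
      obtain ⟨b, hbU, r, hr, hb⟩ := mem_closure_iff.1 ha U hU haU
      have hb' : b * r * g ∈ Y.C x n := hb
      have h1 : b * r * g * g⁻¹ ∈ O := ⟨r, hr, by simpa [mul_assoc] using hbU⟩
      have hc : ContinuousAt (fun p : G × G => p.1 * p.2⁻¹) (b * r * g, g) := by fun_prop
      have h2 := hc (hOo.mem_nhds h1)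
      rw [Filter.mem_map, nhds_prod_eq, Filter.mem_prod_iff] at h2
      obtain ⟨t₁, ht₁, t₂, ht₂, ht⟩ := h2
      obtain ⟨V, hVS, hV, hVt⟩ := hSb.mem_nhds_iff.1 ht₁
      obtain ⟨W, hWS, hW, hWt⟩ := hSb.mem_nhds_iff.1 ht₂
      exact ⟨V, hVS, W, hWS, fun v hv w hw => ht (Set.mk_mem_prod (hVt hv) (hWt hw)),
        ⟨_, hb', hV⟩, hW⟩
    · rintro ⟨V, hVS, W, hWS, hVW, ⟨c, hc, hcV⟩, hg⟩
      obtain ⟨r, hr, hcr⟩ := hVW c hcV g hg
      refine ⟨c * g⁻¹ * r⁻¹, subset_closure ⟨r, hr, ?_⟩, hcr⟩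
      show c * g⁻¹ * r⁻¹ * r * g ∈ Y.C x n
      simpa [mul_assoc] using hc
  rw [key]
  refine MeasurableSet.biUnion hSc fun V hV => MeasurableSet.biUnion hSc fun W hW => ?_
  exact MeasurableSet.iUnion fun _ => (Y.meas n V (hSb.isOpen hV)).prod (hSb.isOpen hW).measurableSet

end Pool.Agent.H54.LQ
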