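import Pool.Agent.H54.LQ.Targets

/-!
Rows KXA and BSX of the board lpq.
-/

set_option autoImplicit false

open Set Filter Topology

namespace Pool.Agent.H54.LQ

open Pool.Agent.H93.CP Pool.Agent.H7.LP Pool.Agent.H7.LQ

theorem pf_KXA (h1 : Pool.Agent.H7.LP.T_LAB) (h2 : T_KKA) : T_KXA := by
  intro G X _ _ _ _ _ B L M _ Y k x g
  obtain ⟨hcl, -, -, -, -, -, hll⟩ := h1 G
  exact h2 G B (L.R k) (L.H k) (lb L Y k x g) (L.piece k) (fun n => hcl _ _ n) (hll _ _)

theorem pf_BSX : T_BSX := by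
  intro G _ _ _ _
  obtain ⟨b, hbc, -, hb⟩ := TopologicalSpace.exists_countable_basis G
  obtain ⟨U, hU⟩ : ∃ U : ℕ → Set G, insert univ b = range U :=
    (hbc.insert univ).exists_eq_range (insert_nonempty _ _)
  obtain ⟨V, hV⟩ := (𝓝 (1 : G)).exists_antitone_basis
  have hW : Antitone fun m => interior (V m) := fun m n h => interior_mono (hV.antitone h)
  refine ⟨{ U := U, opn := ?_, bas := ?_, N := fun m => interior (V m) ∩ (interior (V m))⁻¹,
            nopn := ?_, none := ?_, ninv := ?_, nant := ?_, nbas := ?_ }⟩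
  · intro p
    have : U p ∈ insert univ b := hU ▸ mem_range_self p
    rcases this with h | h
    · rw [h]
      exact isOpen_univ
    · exact hb.isOpen h
  · intro a O hO
    obtain ⟨v, hvb, hav, hvO⟩ := hb.mem_nhds_iff.1 hO
    have : v ∈ range U := hU ▸ mem_insert_of_mem _ hvb
    obtain ⟨p, rfl⟩ := this
    exact ⟨p, hav, hvO⟩
  · intro m
    exact isOpen_interior.inter isOpen_interior.inv
  · intro m
    have h : (1 : G) ∈ interior (V m) := mem_interior_iff_mem_nhds.2 (hV.mem m)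
    exact ⟨h, by simpa using h⟩
  · rintro m g ⟨h1, h2⟩
    exact ⟨h2, by simpa using h1⟩
  · rintro m g ⟨h1, h2⟩
    exact ⟨hW (Nat.le_succ m) h1, hW (Nat.le_succ m) h2⟩
  · intro O hO
    obtain ⟨m, -, hm⟩ := hV.toHasBasis.mem_iff.1 hO
    exact ⟨m, fun g hg => hm (interior_subset hg.1)⟩

end Pool.Agent.H54.LQ
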