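import Pool.Agent.H7.LP.All
import Pool.Agent.H54.LQ.Bridge
import Pool.Agent.H54.LQ.LBM
import Pool.Agent.H14.LQ.SEG
import Pool.Agent.H14.LQ.SE0
import Pool.Agent.H13.LPQ.KRN
import Pool.Agent.H78.LQ.MEM
import Pool.Agent.H36.LQ.KKA
import Pool.Agent.H54.LQ.Small
import Pool.Agent.H46.LQ.GEN
import Pool.Agent.H75.LQ.DOP
import Pool.Agent.H62.LQ.FIN
import Pool.Agent.H41.LQ.TGC
import Pool.Agent.H85.LQ.SGO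
import Pool.Agent.H85.LQ.CLB
import Pool.Agent.H4.LQ.BSU
import Pool.Agent.H95.LQ.DEL
import Pool.Agent.H17.LQ.BKX
import Pool.Agent.H54.LQ.BTG
import Pool.Agent.H89.LQ.BLE
import Pool.Agent.H64.LQ.BQQ

/-!
# Part B of the board lpq_modules, without hypotheses
-/

set_option autoImplicit false

namespace Pool.Agent.H54.LQ

theorem c_BSX : T_BSX :=
  Pool.Agent.H54.LQ.pf_BSX

theorem c_SEG : T_SEG :=
  Pool.Agent.H14.LQ.pf_SEG Pool.Agent.H7.LP.r_RCZ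

theorem c_SEL0 : T_SEL0 :=
  Pool.Agent.H14.LQ.pf_SEL0 c_SEG

theorem c_KRN : T_KRN :=
  Pool.Agent.H13.LPQ.pf_KRN c_SEG

theorem c_MEM : T_MEM :=
  Pool.Agent.H78.LQ.pf_MEM

theorem c_KKA : T_KKA :=
  Pool.Agent.H36.LQ.pf_KKA Pool.Agent.H7.LP.r_LAB Pool.Agent.H7.LP.r_OCL Pool.Agent.H7.LP.r_TGA

theorem c_KXA : T_KXA :=
  Pool.Agent.H54.LQ.pf_KXA Pool.Agent.H7.LP.r_LAB c_KKA

theorem c_GEN : T_GEN :=
  Pool.Agent.H46.LQ.pf_GEN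

theorem c_DOP : T_DOP :=
  Pool.Agent.H75.LQ.pf_DOP

theorem c_FIN : T_FIN :=
  Pool.Agent.H62.LQ.pf_FIN c_DOP

theorem c_TGC : T_TGC :=
  Pool.Agent.H41.LQ.pf_TGC c_KXA

theorem c_SGO : T_SGO :=
  Pool.Agent.H85.LQ.pf_SGO

theorem c_CLB : T_CLB :=
  Pool.Agent.H85.LQ.pf_CLB Pool.Agent.H7.LP.r_LAB Pool.Agent.H7.LP.r_RTP Pool.Agent.H7.LP.r_CLA

theorem c_BSU : T_BSU :=
  Pool.Agent.H4.LQ.pf_BSU Pool.Agent.H7.LP.r_LAB Pool.Agent.H7.LP.r_OCI c_SGO c_CLB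

theorem c_DEL : T_DEL :=
  Pool.Agent.H95.LQ.pf_DEL Pool.Agent.H7.LP.r_LAB c_KRN c_BSU

theorem c_BKX : T_BKX :=
  Pool.Agent.H17.LQ.pf_BKX Pool.Agent.H7.LP.r_LAB c_MEM c_GEN c_DEL

theorem c_BTG : T_BTG :=
  Pool.Agent.H54.LQ.pf_BTG c_KXA c_FIN c_TGC c_DEL c_BKX

theorem c_BLE : T_BLE :=
  Pool.Agent.H89.LQ.pf_BLE c_KXA c_DOP c_DEL c_BKX

theorem c_BQQ : T_BQQ :=
  Pool.Agent.H64.LQ.pf_BQQ c_KXA c_DOP c_DEL c_BKX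

theorem q_BSX : Pool.Agent.H7.LQ.T_BSX := br_BSX c_BSX

theorem q_SLX : Pool.Agent.H7.LQ.T_SLX := br_SLX c_SEL0

theorem q_KKA : Pool.Agent.H7.LQ.T_KKA := br_KKA c_KKA

theorem q_LBM : Pool.Agent.H7.LQ.T_LBM := pf_LBM

theorem q_BKX : Pool.Agent.H7.LQ.T_BKX := br_BKX c_BKX

theorem q_BTG : Pool.Agent.H7.LQ.T_BTG := br_BTG c_BTG

theorem q_BLE : Pool.Agent.H7.LQ.T_BLE := br_BLE c_BLE

theorem q_BQQ : Pool.Agent.H7.LQ.T_BQQ := br_BQQ c_BQQ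

end Pool.Agent.H54.LQ
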