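import Pool.Agent.H69.LQ.Lib
import Pool.Agent.H33.LQ.M1

/-!
# Board `lqm_modules`, row M2: degree `1` with the eigenfunction split off
-/

set_option autoImplicit false

open MeasureTheory Metric Set Filter Topology
open scoped ENNReal
open Pool.Agent.H85.LK (E adm lam Ann)
open Pool.Agent.H69.LQ

namespace Pool.Agent.H54.LQ

theorem pf_M2 (hPH : T_PH) (hPV : T_PV) (hM1 : T_M1) : T_M2 := by
  intro N L μ a t f f' hN hFz hμ ha hμa hf h0 hfa
  obtain ⟨hP1, hP2, hP3⟩ := hPH N L hN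
  obtain ⟨hV1, -⟩ := hPV N L hN hFz
  obtain ⟨P, hP⟩ : ∃ P, P = ph N L 1 := ⟨_, rfl⟩
  obtain ⟨P', hP'⟩ : ∃ P', P' = dph N L 1 := ⟨_, rfl⟩
  have hPC : C1 P P' := by
    rw [hP, hP']
    exact ⟨fun x => hP1 1 x, (hP2 1).2.continuous⟩
  have hPcont : Continuous P := continuous_iff_continuousAt.2 fun r => (hPC.1 r).continuousAt
  have hP0 : P 0 = 0 := by
    rw [hP, ph]
    simp
  have hPd : ∀ r : ℝ, 0 < r → HasDerivAt (fun r => r ^ (N - 1) * P' r)
      (r ^ (N - 1) * ((((N : ℝ) - 1) / r ^ 2 - L) * P r)) r := by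
    intro r hr
    have h1 := hP3 1 r hr
    rw [hP, hP']
    have h2 : ((1 : ℕ) : ℝ) * (((1 : ℕ) : ℝ) + N - 2) = (N : ℝ) - 1 := by
      push_cast
      ring
    rw [h2] at h1
    exact h1
  have hmu0 : 0 < μ := lt_of_lt_of_le one_pos hμ
  have hpos : ∀ r, 0 < r → r ≤ μ * a → 0 < ph N L 1 r := fun r hr hr' =>
    hV1 r hr (lt_of_le_of_lt hr' hμa)
  rw [← hP] at hfa
  rw [← hP, ← hP']
  -- the difference
  obtain ⟨w, hw⟩ : ∃ w : ℝ → ℝ, w = fun r => f r - t * P r := ⟨_, rfl⟩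
  obtain ⟨w', hw'⟩ : ∃ w' : ℝ → ℝ, w' = fun r => f' r - t * P' r := ⟨_, rfl⟩
  have hwC : C1 w w' := by
    rw [hw, hw']
    refine ⟨fun x => (hf.1 x).sub ((hPC.1 x).const_mul t), ?_⟩
    have h1 := hf.2
    have h2 := hPC.2
    fun_prop
  have hw0 : w 0 = 0 := by
    rw [hw]
    simp only
    rw [h0, hP0]
    ring
  have hwa : w a = 0 := by
    rw [hw]
    simp only
    rw [hfa]
    ring
  have hfc : Continuous f := continuous_iff_continuousAt.2 fun r => (hf.1 r).continuousAt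
  have hwc : Continuous w := continuous_iff_continuousAt.2 fun r => (hwC.1 r).continuousAt
  have hf'c := hf.2
  have hw'c := hwC.2
  have hP'c := hPC.2
  obtain ⟨qf, hqf, hfq⟩ := H33.LQ.m1_q hf h0
  obtain ⟨qw, hqw, hwq⟩ := H33.LQ.m1_q hwC hw0
  obtain ⟨G, hG⟩ : ∃ G : ℝ → ℝ, G = fun r => r ^ (N - 1) * (f' r ^ 2 +
    ((N : ℝ) - 1) * qf r ^ 2 - L * f r ^ 2) := ⟨_, rfl⟩
  obtain ⟨K, hK⟩ : ∃ K : ℝ → ℝ, K = fun r => r ^ (N - 1) * (w' r ^ 2 +
    ((N : ℝ) - 1) * qw r ^ 2 - L * w r ^ 2) := ⟨_, rfl⟩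
  have hGc : Continuous G := by
    rw [hG]
    fun_prop
  have hKc : Continuous K := by
    rw [hK]
    fun_prop
  have hwwc : Continuous fun r : ℝ => r ^ (N - 1) * w r ^ 2 := by fun_prop
  have hGeq : ∀ r : ℝ, 0 < r → r ^ (N - 1) *
      (f' r ^ 2 + (((N : ℝ) - 1) / r ^ 2 - L) * f r ^ 2) = G r := by
    intro r hr
    have hr0 : r ≠ 0 := hr.ne'
    simp only [hG]
    rw [hfq r]
    field_simp
    ring
  have hKeq : ∀ r : ℝ, 0 < r → r ^ (N - 1) *
      (w' r ^ 2 + (((N : ℝ) - 1) / r ^ 2 - L) * w r ^ 2) = K r := by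
    intro r hr
    have hr0 : r ≠ 0 := hr.ne'
    simp only [hK]
    rw [hwq r]
    field_simp
    ring
  have hint : ∀ A B : ℝ → ℝ, (∀ r, 0 < r → A r = B r) →
      (∫ r in (0 : ℝ)..a, A r) = ∫ r in (0 : ℝ)..a, B r := by
    intro A B hAB
    rw [intervalIntegral.integral_of_le ha.le, intervalIntegral.integral_of_le ha.le]
    exact setIntegral_congr_fun measurableSet_Ioc fun r hr => hAB r hr.1
  rw [hint _ G hGeq]
  -- the boundary terms
  have hbd : (∫ r in (0 : ℝ)..a, (G r - K r)) = a ^ (N - 1) * (P' a * P a) * t ^ 2 := by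
    have h1 := intervalIntegral.integral_eq_sub_of_hasDeriv_right_of_le
      (f := fun r => r ^ (N - 1) * P' r * (t ^ 2 * P r + 2 * t * w r)) (f' := fun r => G r - K r)
      (a := 0) (b := a) ha.le (by fun_prop) ?_ ((hGc.sub hKc).intervalIntegrable _ _)
    · rw [h1, hwa, zero_pow (show N - 1 ≠ 0 by omega)]
      ring
    · intro r hr
      have h2 := (hPd r hr.1).mul (((hPC.1 r).const_mul (t ^ 2)).add ((hwC.1 r).const_mul (2 * t)))
      have h3 : r ^ (N - 1) * ((((N : ℝ) - 1) / r ^ 2 - L) * P r) *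
          (t ^ 2 * P r + 2 * t * w r) + r ^ (N - 1) * P' r * (t ^ 2 * P' r + 2 * t * w' r) =
          G r - K r := by
        rw [← hGeq r hr.1, ← hKeq r hr.1, hw, hw']
        ring
      rw [← h3]
      exact h2.hasDerivWithinAt
  rw [intervalIntegral.integral_sub (hGc.intervalIntegrable _ _) (hKc.intervalIntegrable _ _)]
    at hbd
  -- the inequality for the difference
  have h1 := hM1 N 1 L μ a w w' hN le_rfl hmu0 ha hpos hwC hw0
  rw [hwa] at h1
  have h2 : (∫ r in (0 : ℝ)..a, r ^ (N - 1) *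
      (w' r ^ 2 + (((1 : ℕ) : ℝ) * (((1 : ℕ) : ℝ) + N - 2) / r ^ 2 - μ ^ 2 * L) * w r ^ 2)) =
      ∫ r in (0 : ℝ)..a, (K r - (μ ^ 2 - 1) * L * (r ^ (N - 1) * w r ^ 2)) := by
    refine hint _ _ fun r hr => ?_
    rw [← hKeq r hr]
    push_cast
    ring
  rw [h2, intervalIntegral.integral_sub (hKc.intervalIntegrable _ _)
    ((hwwc.const_mul _).intervalIntegrable _ _), intervalIntegral.integral_const_mul] at h1
  have h3 : (∫ r in (0 : ℝ)..a, r ^ (N - 1) * (f r - t * P r) ^ 2) =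
      ∫ r in (0 : ℝ)..a, r ^ (N - 1) * w r ^ 2 := by
    rw [hw]
  rw [h3]
  have h4 : dd N L 1 μ a * (0 : ℝ) ^ 2 = 0 := by ring
  rw [h4] at h1
  linarith

end Pool.Agent.H54.LQ
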